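import Pool.Agent.Helper67.KPG.St3

/-!
# Project KP, module PFA: the determinant of an alternating matrix is a square
-/

set_option autoImplicit false

namespace Pool.Agent.Helper62.KPG

open Matrix Pool.Agent.Helper67.KPG

theorem pfa_field {K : Type*} [Field K] [CharZero K] (n : ℕ) :
    ∀ M : Matrix (Fin n) (Fin n) K, Mᵀ = -M → ∃ r : K, M.det = r ^ 2 := by
  induction n using Nat.strong_induction_on with
  | _ n ih =>
    intro M hM
    have hij : ∀ i j, M j i = -M i j := fun i j => by
      have := congrFun (congrFun hM i) j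
      simpa using this
    have hii : ∀ i, M i i = 0 := fun i => by
      have h := hij i i
      have h2 : (2 : K) * M i i = 0 := by
        rw [two_mul]
        nth_rewrite 2 [h]
        ring
      rcases mul_eq_zero.1 h2 with h3 | h3
      · exact absurd h3 two_ne_zero
      · exact h3
    rcases Nat.lt_or_ge n 2 with hn | hn
    · rcases Nat.lt_or_ge n 1 with h0 | h1
      · obtain rfl : n = 0 := by omega
        exact ⟨1, by simp⟩
      · obtain rfl : n = 1 := by omega
        exact ⟨0, by rw [Matrix.det_fin_one, hii]; ring⟩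
    · obtain ⟨k, rfl⟩ : ∃ k, n = 2 + k := ⟨n - 2, by omega⟩
      obtain ⟨e, he⟩ : ∃ e : Fin 2 ⊕ Fin k ≃ Fin (2 + k), e = finSumFinEquiv := ⟨_, rfl⟩
      by_cases hz : ∀ j, M (e (Sum.inl 0)) j = 0
      · exact ⟨0, by rw [Matrix.det_eq_zero_of_row_eq_zero _ hz]; ring⟩
      · push Not at hz
        obtain ⟨j, hj⟩ := hz
        have hj0 : j ≠ e (Sum.inl 0) := fun h => hj (by rw [h, hii])
        have h01 : e (Sum.inl 1) ≠ e (Sum.inl 0) := fun h => by
          have := e.injective h
          simp at this
        obtain ⟨s, hs⟩ : ∃ s : Equiv.Perm (Fin (2 + k)), s = Equiv.swap (e (Sum.inl 1)) j :=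
          ⟨_, rfl⟩
        have hs0 : s (e (Sum.inl 0)) = e (Sum.inl 0) := by
          rw [hs]
          exact Equiv.swap_apply_of_ne_of_ne h01.symm hj0.symm
        have hs1 : s (e (Sum.inl 1)) = j := by
          rw [hs]
          exact Equiv.swap_apply_left _ _
        obtain ⟨t, ht⟩ : ∃ t : Fin 2 ⊕ Fin k ≃ Fin (2 + k), t = e.trans s := ⟨_, rfl⟩
        obtain ⟨N, hN⟩ : ∃ N, N = M.submatrix t t := ⟨_, rfl⟩
        have hdet : N.det = M.det := by
          rw [hN]
          exact Matrix.det_submatrix_equiv_self t M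
        have hNT : Nᵀ = -N := by
          rw [hN, Matrix.transpose_submatrix, hM]
          rfl
        have hN01 : N (Sum.inl 0) (Sum.inl 1) ≠ 0 := by
          rw [hN, ht, Matrix.submatrix_apply, Equiv.trans_apply, Equiv.trans_apply, hs0, hs1]
          exact hj
        have hNij : ∀ i j, N j i = -N i j := fun i j => by
          have := congrFun (congrFun hNT i) j
          simpa using this
        have hNii : ∀ i, N i i = 0 := fun i => by
          rw [hN]
          exact hii _
        obtain ⟨A, hA⟩ : ∃ A, A = N.toBlocks₁₁ := ⟨_, rfl⟩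
        obtain ⟨B, hB⟩ : ∃ B, B = N.toBlocks₁₂ := ⟨_, rfl⟩
        obtain ⟨C, hC⟩ : ∃ C, C = N.toBlocks₂₁ := ⟨_, rfl⟩
        obtain ⟨D, hD⟩ : ∃ D, D = N.toBlocks₂₂ := ⟨_, rfl⟩
        have hAT : Aᵀ = -A := by
          rw [hA]
          ext i j
          exact hNij _ _
        have hBT : Bᵀ = -C := by
          rw [hB, hC]
          ext i j
          exact hNij _ _
        have hCT : Cᵀ = -B := by
          rw [hB, hC]
          ext i j
          exact hNij _ _
        have hDT : Dᵀ = -D := by
          rw [hD]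
          ext i j
          exact hNij _ _
        have hAdet : A.det = (N (Sum.inl 0) (Sum.inl 1)) ^ 2 := by
          rw [Matrix.det_fin_two, hA]
          simp only [Matrix.toBlocks₁₁, Matrix.of_apply]
          rw [hNii, hNij (Sum.inl 0) (Sum.inl 1)]
          ring
        have hAu : IsUnit A.det := by
          rw [hAdet]
          exact (pow_ne_zero 2 hN01).isUnit
        let _ : Invertible A := Matrix.invertibleOfIsUnitDet A hAu
        have hblk : N = Matrix.fromBlocks A B C D := by
          rw [hA, hB, hC, hD, Matrix.fromBlocks_toBlocks]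
        have hfin : N.det = A.det * (D - C * ⅟A * B).det := by
          rw [hblk, Matrix.det_fromBlocks₁₁]
        have hinvT : (⅟A)ᵀ = -⅟A := by
          rw [Matrix.invOf_eq_nonsing_inv, Matrix.transpose_nonsing_inv, hAT]
          exact (Matrix.inv_eq_left_inv (by
            rw [neg_mul_neg, Matrix.nonsing_inv_mul _ hAu]))
        have hST : (D - C * ⅟A * B)ᵀ = -(D - C * ⅟A * B) := by
          rw [Matrix.transpose_sub, Matrix.transpose_mul, Matrix.transpose_mul, hDT, hBT, hCT,
            hinvT]
          simp only [Matrix.neg_mul, Matrix.mul_neg, neg_neg, Matrix.mul_assoc]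
          abel
        obtain ⟨r, hr⟩ := ih k (by omega) _ hST
        refine ⟨N (Sum.inl 0) (Sum.inl 1) * r, ?_⟩
        rw [← hdet, hfin, hAdet, hr]
        ring

theorem hPFA : StPFA := by
  intro m n M hM
  obtain ⟨φ, hφ⟩ : ∃ φ : MvPolynomial (Fin m) ℂ →+* FractionRing (MvPolynomial (Fin m) ℂ),
      φ = algebraMap _ _ := ⟨_, rfl⟩
  have : CharZero (FractionRing (MvPolynomial (Fin m) ℂ)) :=
    charZero_of_injective_algebraMap
      (IsFractionRing.injective (MvPolynomial (Fin m) ℂ) (FractionRing (MvPolynomial (Fin m) ℂ)))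
  have h1 : (φ.mapMatrix M)ᵀ = -(φ.mapMatrix M) := by
    ext i j
    simp only [Matrix.transpose_apply, RingHom.mapMatrix_apply, Matrix.map_apply,
      Matrix.neg_apply]
    rw [hM i j, map_neg]
  obtain ⟨r, hr⟩ := pfa_field n _ h1
  rw [← RingHom.map_det] at hr
  have hint : IsIntegral (MvPolynomial (Fin m) ℂ) (r ^ 2) := by
    rw [← hr, hφ]
    exact isIntegral_algebraMap
  obtain ⟨J, hJ⟩ := IsIntegrallyClosed.exists_algebraMap_eq_of_isIntegral_pow
    (R := MvPolynomial (Fin m) ℂ) (by norm_num : 0 < 2) hint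
  refine ⟨J, ?_⟩
  apply IsFractionRing.injective (MvPolynomial (Fin m) ℂ) (FractionRing (MvPolynomial (Fin m) ℂ))
  rw [map_pow, hJ, ← hr, hφ]

end Pool.Agent.Helper62.KPG
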